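import Pool.Agent.W797.LP.Stab1

/-!
# Project LP, task STAB (helper797)
-/

set_option autoImplicit false

open Finset

namespace Pool.Agent.W797.LP

open Pool.Agent.W297.LP

open Classical in
/-- the exceptional count -/
noncomputable def aK {V : Type} {q : ℕ} (W : V → V → ℝ) (D : Finset V) (K : Fin q → V) : ℝ :=
  ∑ v ∈ D, (if sK W K v = 1 then (0 : ℝ) else 1)

open Classical in
/-- the partition given by one clique -/
theorem fin1 {V : Type} [Fintype V] {W : V → V → ℝ} (hW : Ker W) (D : Finset V) (q : ℕ)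
    (K : Fin (q + 1) → V) (hn : 0 < Fintype.card V) (d C : ℝ)
    (hD : (1 - d) * (Fintype.card V : ℝ) ≤ (D.card : ℝ))
    (hC : aK W D K * (Fintype.card V : ℝ) + ((bK W D K).card : ℝ) ≤ C * (Fintype.card V : ℝ) ^ 2) :
    ∃ P : V → Fin (q + 1),
      ∑ x, ∑ y, (if P x = P y then 1 - W x y else 0) ≤ (2 * C + 2 * d) * (Fintype.card V : ℝ) ^ 2 := by
  have hn0 : (0 : ℝ) < Fintype.card V := by exact_mod_cast hn
  set n : ℝ := (Fintype.card V : ℝ) with hnd
  set P : V → Fin (q + 1) := fun v => if h : ∃ i, ex W K i v then h.choose else 0 with hP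
  have hPs : ∀ v, (∃ i, ex W K i v) → ex W K (P v) v := by
    intro v h
    have : P v = h.choose := by rw [hP]; simp only; rw [dif_pos h]
    rw [this]
    exact h.choose_spec
  have hPs' : ∀ v, sK W K v = 1 → ex W K (P v) v := by
    intro v h
    apply hPs
    rcases sK_cases hW K v with h' | h' | h'
    · rw [h] at h'; exact absurd h'.1 one_ne_zero
    · exact h'.2
    · rw [h] at h'; norm_num at h'
  set X : V → ℝ := fun v => if v ∈ D ∧ sK W K v = 1 then 0 else 1 with hX
  have hX0 : ∀ v, 0 ≤ X v := by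
    intro v; rw [hX]; simp only; split_ifs <;> norm_num
  have hXs : ∑ v, X v ≤ n * d + aK W D K := by
    have h1 : ∀ v ∈ univ, X v = (if v ∈ D then 0 else 1) + (if v ∈ D then (if sK W K v = 1 then (0 : ℝ) else 1) else 0) := by
      intro v _
      rw [hX]
      simp only
      by_cases h : v ∈ D
      · by_cases h' : sK W K v = 1
        · simp [h, h']
        · simp [h, h']
      · simp [h]
    rw [Finset.sum_congr rfl h1, Finset.sum_add_distrib]
    have h2 : ∑ v : V, (if v ∈ D then (if sK W K v = 1 then (0 : ℝ) else 1) else 0) = aK W D K := by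
      unfold aK
      rw [Finset.sum_ite_mem, Finset.univ_inter]
    have h3 : ∑ v : V, (if v ∈ D then (0 : ℝ) else 1) = n - D.card := by
      have h4 : ∀ v ∈ (univ : Finset V), (if v ∈ D then (0 : ℝ) else 1) = 1 - (if v ∈ D then (1 : ℝ) else 0) := by
        intro v _
        by_cases h : v ∈ D <;> simp [h]
      rw [Finset.sum_congr rfl h4, Finset.sum_sub_distrib, Finset.sum_boole]
      simp [hnd]
    rw [h2, h3]
    nlinarith
  have hpt : ∀ x y : V, (if P x = P y then 1 - W x y else 0) ≤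
      X x + X y + (if (P x, x, y) ∈ bK W D K then (1 : ℝ) else 0) := by
    intro x y
    have hl : (if P x = P y then 1 - W x y else 0) ≤ (1 : ℝ) := by
      rcases hW.zo x y with h | h
      · rw [h]; split_ifs <;> norm_num
      · rw [h]; split_ifs <;> norm_num
    have h0 : (0 : ℝ) ≤ (if (P x, x, y) ∈ bK W D K then (1 : ℝ) else 0) := by
      split_ifs <;> norm_num
    by_cases hx : x ∈ D ∧ sK W K x = 1
    · by_cases hy : y ∈ D ∧ sK W K y = 1
      · have ex1 := hPs' x hx.2
        have ex2 := hPs' y hy.2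
        have h1 := hX0 x
        have h2 := hX0 y
        by_cases hp : P x = P y
        · rcases hW.zo x y with h | h
          · have hm : (P x, x, y) ∈ bK W D K := by
              rw [mem_bK]
              exact ⟨hx.1, hy.1, ex1, by simpa [hp] using ex2, h⟩
            rw [if_pos hm, if_pos hp, h]
            linarith
          · rw [if_pos hp, h]
            linarith
        · rw [if_neg hp]
          linarith
      · have h1 : X y = 1 := by rw [hX]; simp only; rw [if_neg hy]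
        have h2 := hX0 x
        linarith
    · have h1 : X x = 1 := by rw [hX]; simp only; rw [if_neg hx]
      have h2 := hX0 y
      linarith
  refine ⟨P, ?_⟩
  have hb : ∑ x, ∑ y, (if (P x, x, y) ∈ bK W D K then (1 : ℝ) else 0) ≤ ((bK W D K).card : ℝ) := by
    rw [← Fintype.sum_prod_type' (f := fun x y => (if (P x, x, y) ∈ bK W D K then (1 : ℝ) else 0)), Finset.sum_boole]
    have : (univ.filter (fun p : V × V => (P p.1, p.1, p.2) ∈ bK W D K)).card ≤ (bK W D K).card := by
      apply Finset.card_le_card_of_injOn (fun p : V × V => (P p.1, p.1, p.2))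
      · intro p hp
        rw [Finset.mem_coe, Finset.mem_filter] at hp
        exact hp.2
      · rintro ⟨a, b⟩ _ ⟨a', b'⟩ _ h
        simp only [Prod.mk.injEq] at h
        rw [h.2.1, h.2.2]
    exact_mod_cast this
  calc ∑ x, ∑ y, (if P x = P y then 1 - W x y else 0) ≤
        ∑ x, ∑ y, (X x + X y + (if (P x, x, y) ∈ bK W D K then (1 : ℝ) else 0)) :=
        Finset.sum_le_sum (fun x _ => Finset.sum_le_sum (fun y _ => hpt x y))
    _ = n * (∑ v, X v) + n * (∑ v, X v) + ∑ x, ∑ y, (if (P x, x, y) ∈ bK W D K then (1 : ℝ) else 0) := by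
        simp only [Finset.sum_add_distrib, Finset.sum_const, Finset.card_univ, nsmul_eq_mul, ← Finset.mul_sum]
        rw [← hnd]
    _ ≤ n * (n * d + aK W D K) + n * (n * d + aK W D K) + ((bK W D K).card : ℝ) := by
        gcongr
    _ ≤ _ := by
        have hb0 : (0 : ℝ) ≤ ((bK W D K).card : ℝ) := Nat.cast_nonneg _
        nlinarith

open Classical in
/-- sizes of the parts -/
theorem fin2 {V : Type} [Fintype V] (q : ℕ) (P : V → Fin (q + 1)) :
    ∑ i, ((univ.filter (fun x => P x = i)).card : ℝ) = (Fintype.card V : ℝ) ∧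
    ∑ x, ∑ y, (if P x = P y then (1 : ℝ) else 0) = ∑ i, ((univ.filter (fun x => P x = i)).card : ℝ) ^ 2 := by
  constructor
  · have h := Finset.card_eq_sum_card_fiberwise (s := (univ : Finset V)) (t := (univ : Finset (Fin (q + 1))))
      (f := P) (fun _ _ => Finset.mem_coe.mpr (Finset.mem_univ _))
    rw [← Finset.card_univ, h]
    push_cast
    rfl
  · have h1 : ∀ x y : V, (if P x = P y then (1 : ℝ) else 0) =
        ∑ i, (if P x = i then (1 : ℝ) else 0) * (if P y = i then (1 : ℝ) else 0) := by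
      intro x y
      rw [Finset.sum_eq_single (P x)]
      · by_cases h : P x = P y
        · simp [h]
        · have h' : ¬ P y = P x := fun h' => h h'.symm
          simp [h, h']
      · intro i _ hi
        rw [if_neg (fun h => hi h.symm), zero_mul]
      · intro h; exact absurd (Finset.mem_univ _) h
    calc ∑ x, ∑ y, (if P x = P y then (1 : ℝ) else 0)
        = ∑ x, ∑ y, ∑ i, (if P x = i then (1 : ℝ) else 0) * (if P y = i then (1 : ℝ) else 0) := by
          apply Finset.sum_congr rfl; intro x _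
          apply Finset.sum_congr rfl; intro y _
          exact h1 x y
      _ = ∑ x, ∑ i, ∑ y, (if P x = i then (1 : ℝ) else 0) * (if P y = i then (1 : ℝ) else 0) :=
          Finset.sum_congr rfl (fun x _ => Finset.sum_comm)
      _ = ∑ i, ∑ x, ∑ y, (if P x = i then (1 : ℝ) else 0) * (if P y = i then (1 : ℝ) else 0) :=
          Finset.sum_comm
      _ = _ := by
          apply Finset.sum_congr rfl; intro i _
          rw [Finset.sum_congr rfl (fun x _ => (Finset.mul_sum _ _ _).symm), ← Finset.sum_mul, Finset.sum_boole, sq]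

open Classical in
theorem fin3 {V : Type} [Fintype V] {W : V → V → ℝ} (hW : Ker W) (q : ℕ) (hn : 0 < Fintype.card V)
    (d B m : ℝ) (hm : ((q : ℝ) + 1) * m = 1) (P : V → Fin (q + 1))
    (hr : ee W univ univ ≤ m + d)
    (hB : ∑ x, ∑ y, (if P x = P y then 1 - W x y else 0) ≤ B * (Fintype.card V : ℝ) ^ 2) :
    (∑ i, (ms (univ.filter (fun x => P x = i)) - m) ^ 2 ≤ B + d) ∧
      ∑ x, ∑ y, (if P x = P y then 1 - W x y else W x y) ≤ (2 * B + d) * (Fintype.card V : ℝ) ^ 2 := by
  have hn0 : (0 : ℝ) < Fintype.card V := by exact_mod_cast hn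
  obtain ⟨f1, f2⟩ := fin2 q P
  set n : ℝ := (Fintype.card V : ℝ) with hnd
  have hW0 : ∀ x y, 0 ≤ W x y := by
    intro x y
    rcases hW.zo x y with h | h <;> rw [h] <;> norm_num
  have hms : ∀ i, ms (univ.filter (fun x => P x = i)) = ((univ.filter (fun x => P x = i)).card : ℝ) / n := by
    intro i; unfold ms; rw [hnd]
  have hs1 : ∑ i, ms (univ.filter (fun x => P x = i)) = 1 := by
    rw [Finset.sum_congr rfl (fun i _ => hms i), ← Finset.sum_div, f1]
    exact div_self hn0.ne'
  set S : ℝ := ∑ i, (ms (univ.filter (fun x => P x = i))) ^ 2 with hS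
  have hSn : ∑ x, ∑ y, (if P x = P y then (1 : ℝ) else 0) = S * n ^ 2 := by
    rw [f2, hS, Finset.sum_mul]
    apply Finset.sum_congr rfl
    intro i _
    rw [hms i]
    field_simp
  have hdev : ∑ i, (ms (univ.filter (fun x => P x = i)) - m) ^ 2 = S - m := by
    have h1 : ∀ i ∈ (univ : Finset (Fin (q + 1))), (ms (univ.filter (fun x => P x = i)) - m) ^ 2 =
        (ms (univ.filter (fun x => P x = i))) ^ 2 - 2 * m * ms (univ.filter (fun x => P x = i)) + m ^ 2 := by
      intro i _; ring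
    rw [Finset.sum_congr rfl h1, Finset.sum_add_distrib, Finset.sum_sub_distrib, ← Finset.mul_sum, hs1,
      Finset.sum_const, Finset.card_univ, Fintype.card_fin, nsmul_eq_mul, ← hS]
    push_cast
    have : ((q : ℝ) + 1) * m ^ 2 = m := by
      have : ((q : ℝ) + 1) * m ^ 2 = (((q : ℝ) + 1) * m) * m := by ring
      rw [this, hm, one_mul]
    rw [this]
    ring
  have hSm : m ≤ S := by
    have : 0 ≤ ∑ i, (ms (univ.filter (fun x => P x = i)) - m) ^ 2 := Finset.sum_nonneg (fun i _ => sq_nonneg _)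
    rw [hdev] at this
    linarith
  have hrn : ∑ x, ∑ y, W x y ≤ (m + d) * n ^ 2 := by
    have : ee W univ univ = (∑ x, ∑ y, W x y) / n ^ 2 := rfl
    rw [this, div_le_iff₀ (by positivity)] at hr
    exact hr
  have hT : ∑ x, ∑ y, (if P x = P y then 1 - W x y else W x y) =
      2 * (∑ x, ∑ y, (if P x = P y then 1 - W x y else 0)) + (∑ x, ∑ y, W x y) -
        ∑ x, ∑ y, (if P x = P y then (1 : ℝ) else 0) := by
    rw [Finset.mul_sum, ← Finset.sum_add_distrib, ← Finset.sum_sub_distrib]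
    apply Finset.sum_congr rfl
    intro x _
    rw [Finset.mul_sum, ← Finset.sum_add_distrib, ← Finset.sum_sub_distrib]
    apply Finset.sum_congr rfl
    intro y _
    split_ifs <;> ring
  have hR : 0 ≤ (∑ x, ∑ y, (if P x = P y then 1 - W x y else 0)) + (∑ x, ∑ y, W x y) -
        ∑ x, ∑ y, (if P x = P y then (1 : ℝ) else 0) := by
    rw [← Finset.sum_add_distrib, ← Finset.sum_sub_distrib]
    apply Finset.sum_nonneg
    intro x _
    rw [← Finset.sum_add_distrib, ← Finset.sum_sub_distrib]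
    apply Finset.sum_nonneg
    intro y _
    have := hW0 x y
    split_ifs <;> linarith
  rw [hSn] at hT hR
  constructor
  · rw [hdev]
    have h2 : S * n ^ 2 ≤ (m + d + B) * n ^ 2 := by nlinarith
    have h3 := le_of_mul_le_mul_right h2 (by positivity)
    linarith
  · rw [hT]
    have h4 : m * n ^ 2 ≤ S * n ^ 2 := by gcongr
    nlinarith

/-- the total count -/
theorem tot1 {V : Type} [Fintype V] {W : V → V → ℝ} (hW : Ker W) (D : Finset V) (q : ℕ) (m x : ℝ)
    (hx : 0 ≤ x) (hx1 : x ≤ 1)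
    (hm : ((q : ℝ) + 1) * m = 1)
    (h : ∑ v, (dg W v - m) ^ 2 ≤ x ^ 2 * (Fintype.card V : ℝ)) (hn : 0 < Fintype.card V)
    (hD : (1 - x ^ 2) * (Fintype.card V : ℝ) ≤ (D.card : ℝ))
    (hk : ((cl (co W) D (q + 2)).card : ℝ) ≤ x ^ 2 * (Fintype.card V : ℝ) ^ (q + 2)) :
    ∑ K ∈ cl (co W) D (q + 1), (aK W D K * (Fintype.card V : ℝ) + ((bK W D K).card : ℝ)) ≤
      (2 * (q : ℝ) + 5) * x * (Fintype.card V : ℝ) ^ (q + 3) := by
  classical
  have hn0 : (0 : ℝ) < Fintype.card V := by exact_mod_cast hn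
  have h1 := c1 hW D (q + 1)
  have h2 := c2 hW D q m (x ^ 2) (by positivity) hm h hn
  have h3 := c3 hW D (q + 1)
  have h3' : ∑ K ∈ cl (co W) D (q + 1), ((bK W D K).card : ℝ) ≤
      ((q : ℝ) + 1) * (Fintype.card V : ℝ) * ((cl (co W) D (q + 2)).card : ℝ) := by
    exact_mod_cast h3
  rw [Real.sqrt_sq hx] at h2
  set n : ℝ := (Fintype.card V : ℝ) with hnd
  have hcard : ((cl (co W) D (q + 1)).card : ℝ) ≤ n ^ (q + 1) := by
    have : (cl (co W) D (q + 1)).card ≤ Fintype.card (Fin (q + 1) → V) := Finset.card_le_univ _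
    rw [Fintype.card_fun, Fintype.card_fin] at this
    have h' : (((cl (co W) D (q + 1)).card : ℕ) : ℝ) ≤ ((Fintype.card V ^ (q + 1) : ℕ) : ℝ) := by
      exact_mod_cast this
    rw [Nat.cast_pow] at h'
    exact h'
  have h4 : ∑ K ∈ cl (co W) D (q + 1), aK W D K ≤
      ∑ K ∈ cl (co W) D (q + 1), ∑ v ∈ D, sK W K v - (D.card : ℝ) * ((cl (co W) D (q + 1)).card : ℝ) +
        2 * ∑ K ∈ cl (co W) D (q + 1), ∑ v ∈ D, (if sK W K v = 0 then (1 : ℝ) else 0) := by
    have e : (D.card : ℝ) * ((cl (co W) D (q + 1)).card : ℝ) =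
        ∑ K ∈ cl (co W) D (q + 1), ∑ v ∈ D, (1 : ℝ) := by
      simp [mul_comm]
    rw [e, Finset.mul_sum, ← Finset.sum_sub_distrib, ← Finset.sum_add_distrib]
    apply Finset.sum_le_sum
    intro K _
    unfold aK
    rw [Finset.mul_sum, ← Finset.sum_sub_distrib, ← Finset.sum_add_distrib]
    apply Finset.sum_le_sum
    intro v _
    rcases sK_cases hW K v with h | h | h
    · rw [h.1]; norm_num
    · rw [h.1]; norm_num
    · rw [if_neg (by linarith), if_neg (by linarith)]
      linarith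
  have hA : ∑ K ∈ cl (co W) D (q + 1), aK W D K ≤ (3 * x ^ 2 + ((q : ℝ) + 1) * x) * n ^ (q + 2) := by
    have e1 : (1 - x ^ 2) * n * ((cl (co W) D (q + 1)).card : ℝ) ≤ (D.card : ℝ) * ((cl (co W) D (q + 1)).card : ℝ) := by
      gcongr
    have e2 : x ^ 2 * n * ((cl (co W) D (q + 1)).card : ℝ) ≤ x ^ 2 * n * n ^ (q + 1) := by gcongr
    have e3 : x ^ 2 * n * n ^ (q + 1) = x ^ 2 * n ^ (q + 2) := by ring
    have e4 : ∑ K ∈ cl (co W) D (q + 1), ∑ v ∈ D, (if sK W K v = 0 then (1 : ℝ) else 0) ≤ x ^ 2 * n ^ (q + 2) :=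
      le_trans h1 hk
    nlinarith
  have hB : ∑ K ∈ cl (co W) D (q + 1), ((bK W D K).card : ℝ) ≤ ((q : ℝ) + 1) * x ^ 2 * n ^ (q + 3) := by
    calc _ ≤ ((q : ℝ) + 1) * n * ((cl (co W) D (q + 2)).card : ℝ) := h3'
      _ ≤ ((q : ℝ) + 1) * n * (x ^ 2 * n ^ (q + 2)) := by gcongr
      _ = _ := by ring
  rw [Finset.sum_add_distrib, ← Finset.sum_mul]
  have hx2 : x ^ 2 ≤ x := by nlinarith
  have hq0 : (0 : ℝ) ≤ q := Nat.cast_nonneg _
  calc (∑ K ∈ cl (co W) D (q + 1), aK W D K) * n + ∑ K ∈ cl (co W) D (q + 1), ((bK W D K).card : ℝ)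
      ≤ ((3 * x ^ 2 + ((q : ℝ) + 1) * x) * n ^ (q + 2)) * n + ((q : ℝ) + 1) * x ^ 2 * n ^ (q + 3) := by gcongr
    _ = ((((q : ℝ) + 4) * x ^ 2) + ((q : ℝ) + 1) * x) * n ^ (q + 3) := by ring
    _ ≤ ((((q : ℝ) + 4) * x) + ((q : ℝ) + 1) * x) * n ^ (q + 3) := by gcongr
    _ = _ := by ring

/-- averaging -/
theorem avg1 {V : Type} [Fintype V] {W : V → V → ℝ} (D : Finset V) (q : ℕ) (c C : ℝ)
    (hc : 0 < c) (hn : 0 < Fintype.card V)
    (hK : c * (Fintype.card V : ℝ) ^ (q + 1) ≤ ((cl (co W) D (q + 1)).card : ℝ))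
    (hC : 0 ≤ C)
    (h : ∑ K ∈ cl (co W) D (q + 1), (aK W D K * (Fintype.card V : ℝ) + ((bK W D K).card : ℝ)) ≤
      C * (Fintype.card V : ℝ) ^ (q + 3)) :
    ∃ K : Fin (q + 1) → V, aK W D K * (Fintype.card V : ℝ) + ((bK W D K).card : ℝ) ≤
      C / c * (Fintype.card V : ℝ) ^ 2 := by
  have hn0 : (0 : ℝ) < Fintype.card V := by exact_mod_cast hn
  by_contra hcon
  push Not at hcon
  have hne : (cl (co W) D (q + 1)).Nonempty := by
    rw [← Finset.card_pos]
    have : (0 : ℝ) < ((cl (co W) D (q + 1)).card : ℝ) := lt_of_lt_of_le (by positivity) hK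
    exact_mod_cast this
  have h1 : ∑ K ∈ cl (co W) D (q + 1), C / c * (Fintype.card V : ℝ) ^ 2 <
      ∑ K ∈ cl (co W) D (q + 1), (aK W D K * (Fintype.card V : ℝ) + ((bK W D K).card : ℝ)) :=
    Finset.sum_lt_sum_of_nonempty hne (fun K _ => hcon K)
  rw [Finset.sum_const, nsmul_eq_mul] at h1
  have h2 : C * (Fintype.card V : ℝ) ^ (q + 3) ≤
      ((cl (co W) D (q + 1)).card : ℝ) * (C / c * (Fintype.card V : ℝ) ^ 2) := by
    calc C * (Fintype.card V : ℝ) ^ (q + 3) =
          (c * (Fintype.card V : ℝ) ^ (q + 1)) * (C / c * (Fintype.card V : ℝ) ^ 2) := by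
            field_simp
            ring
      _ ≤ _ := by gcongr
  linarith

theorem ker_co {V : Type} {W : V → V → ℝ} (hW : Ker W) : Ker (co W) := by
  constructor
  · intro x y
    unfold co
    rw [hW.symm]
  · intro x y
    unfold co
    rcases hW.zo x y with h | h
    · right; rw [h, sub_zero]
    · left; rw [h, sub_self]

theorem stab : SManyK → SStab := by
  classical
  intro hMany k hk δ hδ
  obtain ⟨c, h, hc, hh, hM⟩ := hMany k hk
  obtain ⟨q, rfl⟩ : ∃ q, k = q + 2 := ⟨k - 2, by omega⟩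
  have hmu : mu (q + 2) = 1 / ((q : ℝ) + 1) := by
    unfold mu
    push_cast
    congr 1
    ring
  have hq0 : (0 : ℝ) ≤ q := Nat.cast_nonneg _
  have hm : ((q : ℝ) + 1) * mu (q + 2) = 1 := by
    rw [hmu]
    field_simp
  set A : ℝ := (2 * (q : ℝ) + 5) / c with hA
  have hA0 : 0 < A := by rw [hA]; positivity
  set x : ℝ := min (min 1 (h / 3)) (min (δ / (6 * A + 5)) (δ ^ 2 / (3 * A + 3))) with hxd
  have hx0 : 0 < x := by
    rw [hxd]
    refine lt_min (lt_min one_pos (by positivity)) (lt_min (by positivity) (by positivity))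
  have hx1 : x ≤ 1 := le_trans (min_le_left _ _) (min_le_left _ _)
  have hx2 : x ≤ h / 3 := le_trans (min_le_left _ _) (min_le_right _ _)
  have hx3 : x ≤ δ / (6 * A + 5) := le_trans (min_le_right _ _) (min_le_left _ _)
  have hx4 : x ≤ δ ^ 2 / (3 * A + 3) := le_trans (min_le_right _ _) (min_le_right _ _)
  rw [le_div_iff₀ (by positivity)] at hx3 hx4
  have hxx : x ^ 2 ≤ x := by nlinarith
  refine ⟨x ^ 2, by positivity, ?_⟩
  intro V _ W hW hn hal
  obtain ⟨D, hD1, hD2, hD3, hD4⟩ := hal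
  have hn0 : (0 : ℝ) < Fintype.card V := by exact_mod_cast hn
  have hD1' : (1 - x ^ 2) * (Fintype.card V : ℝ) ≤ (D.card : ℝ) := by
    unfold ms at hD1
    rwa [le_div_iff₀ hn0] at hD1
  have hrho := abs_le.mp hD3
  have hW0 : ∀ x y, 0 ≤ W x y := by
    intro x y
    rcases hW.zo x y with h | h <;> rw [h] <;> norm_num
  have hee : 1 - mu (q + 2) - h ≤ ee (co W) D D := by
    have e1 : ee (co W) D D = (ms D) ^ 2 - ee W D D := by
      unfold ee ms co
      simp only [Finset.sum_sub_distrib, Finset.sum_const, nsmul_eq_mul, mul_one]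
      field_simp
    have e2 : ee W D D ≤ ee W univ univ := by
      unfold ee
      apply div_le_div_of_nonneg_right _ (by positivity)
      calc ∑ x ∈ D, ∑ y ∈ D, W x y ≤ ∑ x ∈ D, ∑ y, W x y :=
            Finset.sum_le_sum (fun x _ => Finset.sum_le_sum_of_subset_of_nonneg (Finset.subset_univ _)
              (fun y _ _ => hW0 x y))
        _ ≤ ∑ x, ∑ y, W x y := Finset.sum_le_sum_of_subset_of_nonneg (Finset.subset_univ _)
              (fun x _ _ => Finset.sum_nonneg (fun y _ => hW0 x y))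
    rw [e1]
    have e3 : (1 - x ^ 2) ^ 2 ≤ (ms D) ^ 2 := by
      apply pow_le_pow_left₀ _ hD1
      nlinarith
    nlinarith [hrho.2]
  have hcl := hM V (co W) (ker_co hW) D hee
  have hT := tot1 hW D q (mu (q + 2)) x hx0.le hx1 hm hD4 hn hD1' hD2
  obtain ⟨K, hK⟩ := avg1 D q c ((2 * (q : ℝ) + 5) * x) hc hn hcl (by positivity) hT
  have hCA : (2 * (q : ℝ) + 5) * x / c = A * x := by rw [hA]; ring
  rw [hCA] at hK
  obtain ⟨P, hP⟩ := fin1 hW D q K hn (x ^ 2) (A * x) hD1' hK
  have hr : ee W univ univ ≤ mu (q + 2) + x ^ 2 := by linarith [hrho.2]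
  obtain ⟨f1, f2⟩ := fin3 hW q hn (x ^ 2) (2 * (A * x) + 2 * x ^ 2) (mu (q + 2)) hm P hr hP
  refine ⟨P, ?_, ?_⟩
  · intro i
    have g1 : (ms (univ.filter (fun x => P x = i)) - mu (q + 2)) ^ 2 ≤ δ ^ 2 := by
      calc (ms (univ.filter (fun x => P x = i)) - mu (q + 2)) ^ 2 ≤
            ∑ i, (ms (univ.filter (fun x => P x = i)) - mu (q + 2)) ^ 2 :=
            Finset.single_le_sum (f := fun i => (ms (univ.filter (fun x => P x = i)) - mu (q + 2)) ^ 2)
              (fun i _ => sq_nonneg _) (Finset.mem_univ i)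
        _ ≤ _ := f1
        _ ≤ δ ^ 2 := by nlinarith
    exact abs_le_of_sq_le_sq g1 hδ.le
  · refine le_trans f2 ?_
    gcongr
    nlinarith

end Pool.Agent.W797.LP
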