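import Pool.Agent.W297.LP.Stm

/-!
# Project LP, task STAB, part 1 (helper797): counting
-/

set_option autoImplicit false

open Finset

namespace Pool.Agent.W797.LP

open Pool.Agent.W297.LP

/-- red degree of `v` into `K` -/
noncomputable def sK {V : Type} {q : ℕ} (W : V → V → ℝ) (K : Fin q → V) (v : V) : ℝ := ∑ i, W (K i) v

/-- `v` is red exactly to `K i` -/
def ex {V : Type} {q : ℕ} (W : V → V → ℝ) (K : Fin q → V) (i : Fin q) (v : V) : Prop :=
  ∀ j, W (K j) v = if j = i then 1 else 0

theorem ex_uniq {V : Type} {q : ℕ} {W : V → V → ℝ} {K : Fin q → V} {i i' : Fin q} {v : V}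
    (h : ex W K i v) (h' : ex W K i' v) : i = i' := by
  by_contra hne
  have h1 := h i
  have h2 := h' i
  rw [if_pos rfl] at h1
  rw [if_neg hne, h1] at h2
  exact one_ne_zero h2

theorem sK_cases {V : Type} {q : ℕ} {W : V → V → ℝ} (hW : Ker W) (K : Fin q → V) (v : V) :
    (sK W K v = 0 ∧ ∀ i, W (K i) v = 0) ∨ (sK W K v = 1 ∧ ∃ i, ex W K i v) ∨ 2 ≤ sK W K v := by
  classical
  set F : Finset (Fin q) := univ.filter (fun i => W (K i) v = 1) with hF
  have hs : sK W K v = (F.card : ℝ) := by
    unfold sK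
    have h1 : ∀ i ∈ univ, W (K i) v = if W (K i) v = 1 then (1 : ℝ) else 0 := by
      intro i _
      rcases hW.zo (K i) v with h | h
      · rw [if_neg (by rw [h]; norm_num), h]
      · rw [if_pos h, h]
    rw [Finset.sum_congr rfl h1, Finset.sum_boole]
  have hmem : ∀ i, i ∈ F ↔ W (K i) v = 1 := fun i => by rw [hF, Finset.mem_filter]; simp
  have hnm : ∀ i, i ∉ F → W (K i) v = 0 := by
    intro i hi
    rcases hW.zo (K i) v with h | h
    · exact h
    · exact absurd ((hmem i).mpr h) hi
  rcases Nat.lt_or_ge F.card 2 with h | h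
  · interval_cases hc : F.card
    · left
      rw [Finset.card_eq_zero] at hc
      refine ⟨by rw [hs]; norm_num, fun i => hnm i (by rw [hc]; simp)⟩
    · right; left
      obtain ⟨i, hi⟩ := Finset.card_eq_one.mp hc
      refine ⟨by rw [hs]; norm_num, i, fun j => ?_⟩
      by_cases hj : j = i
      · rw [if_pos hj, hj]
        exact (hmem i).mp (by rw [hi]; simp)
      · rw [if_neg hj]
        exact hnm j (by rw [hi]; simpa using hj)
  · right; right
    rw [hs]
    exact_mod_cast h

theorem ex_s {V : Type} {q : ℕ} {W : V → V → ℝ} {K : Fin q → V} {i : Fin q} {v : V} (h : ex W K i v) :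
    sK W K v = 1 := by
  classical
  unfold sK
  rw [Finset.sum_congr rfl (fun j _ => h j)]
  simp

open Classical in
theorem mem_cl {V : Type} [Fintype V] (W : V → V → ℝ) (D : Finset V) (s : ℕ) (x : Fin s → V) :
    x ∈ cl W D s ↔ (∀ i, x i ∈ D) ∧ ∀ i j, i ≠ j → W (x i) (x j) = 1 := by
  unfold cl
  rw [Finset.mem_filter]
  simp

/-- adding a vertex to a clique -/
theorem snoc_mem {V : Type} [Fintype V] {W : V → V → ℝ} (hW : Ker W) (D : Finset V) (q : ℕ)
    (K : Fin q → V) (v : V) (hK : K ∈ cl (co W) D q) (hv : v ∈ D) (h : ∀ i, W (K i) v = 0) :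
    (Fin.snoc K v : Fin (q + 1) → V) ∈ cl (co W) D (q + 1) := by
  rw [mem_cl] at hK ⊢
  constructor
  · intro i
    refine Fin.lastCases ?_ (fun j => ?_) i
    · rw [Fin.snoc_last]; exact hv
    · rw [Fin.snoc_castSucc]; exact hK.1 j
  · intro i j
    refine Fin.lastCases ?_ (fun i => ?_) i
    · refine Fin.lastCases ?_ (fun j => ?_) j
      · intro hij; exact absurd rfl hij
      · intro _
        rw [Fin.snoc_last, Fin.snoc_castSucc]
        unfold co
        rw [hW.symm, h j, sub_zero]
    · refine Fin.lastCases ?_ (fun j => ?_) j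
      · intro _
        rw [Fin.snoc_last, Fin.snoc_castSucc]
        unfold co
        rw [h i, sub_zero]
      · intro hij
        rw [Fin.snoc_castSucc, Fin.snoc_castSucc]
        exact hK.2 i j (fun h => hij (by rw [h]))

open Classical in
/-- pairs with no red edge -/
theorem c1 {V : Type} [Fintype V] {W : V → V → ℝ} (hW : Ker W) (D : Finset V) (q : ℕ) :
    ∑ K ∈ cl (co W) D q, ∑ v ∈ D, (if sK W K v = 0 then (1 : ℝ) else 0) ≤
      ((cl (co W) D (q + 1)).card : ℝ) := by
  rw [← Finset.sum_product', Finset.sum_boole]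
  have : (((cl (co W) D q) ×ˢ D).filter (fun p => sK W p.1 p.2 = 0)).card ≤ (cl (co W) D (q + 1)).card := by
    apply Finset.card_le_card_of_injOn (fun p => (Fin.snoc p.1 p.2 : Fin (q + 1) → V))
    · rintro ⟨K, v⟩ hp
      rw [Finset.mem_coe, Finset.mem_filter, Finset.mem_product] at hp
      obtain ⟨⟨hK, hv⟩, hs⟩ := hp
      simp only at hK hv hs
      have h : ∀ i, W (K i) v = 0 := by
        rcases sK_cases hW K v with h | ⟨h, _⟩ | h
        · exact h.2
        · rw [hs] at h; norm_num at h
        · rw [hs] at h; norm_num at h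
      exact snoc_mem hW D q K v hK hv h
    · rintro ⟨K, v⟩ _ ⟨K', v'⟩ _ h
      simp only at h
      have h1 : K = K' := by
        funext i
        have := congrFun h (Fin.castSucc i)
        rwa [Fin.snoc_castSucc, Fin.snoc_castSucc] at this
      have h2 : v = v' := by
        have := congrFun h (Fin.last q)
        rwa [Fin.snoc_last, Fin.snoc_last] at this
      rw [h1, h2]
  exact_mod_cast this

/-- sum of a function of one coordinate -/
theorem sum_coord {V : Type} [Fintype V] (q : ℕ) (i : Fin (q + 1)) (f : V → ℝ) :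
    ∑ K : Fin (q + 1) → V, f (K i) = (Fintype.card V : ℝ) ^ q * ∑ x, f x := by
  rw [← Equiv.sum_comp (Fin.insertNthEquiv (fun _ : Fin (q + 1) => V) i)]
  have h1 : ∀ p : V × (Fin q → V), f ((Fin.insertNthEquiv (fun _ : Fin (q + 1) => V) i) p i) = f p.1 := by
    intro p
    rw [Fin.insertNthEquiv_apply, Fin.insertNth_apply_same]
  rw [Fintype.sum_prod_type]
  have h2 : ∀ x : V, ∑ y : Fin q → V, f ((Fin.insertNthEquiv (fun _ : Fin (q + 1) => V) i) (x, y) i) =
      (Fintype.card V : ℝ) ^ q * f x := by
    intro x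
    rw [Finset.sum_congr rfl (fun y _ => h1 (x, y))]
    show ∑ _y : Fin q → V, f x = _
    rw [Finset.sum_const, Finset.card_univ, Fintype.card_fun, Fintype.card_fin, nsmul_eq_mul]
    push_cast
    ring
  rw [Finset.sum_congr rfl (fun x _ => h2 x), ← Finset.mul_sum]

/-- Cauchy-Schwarz for the degrees -/
theorem deg_dev {V : Type} [Fintype V] (W : V → V → ℝ) (m d : ℝ) (hd : 0 ≤ d)
    (h : ∑ x, (dg W x - m) ^ 2 ≤ d * (Fintype.card V : ℝ)) :
    ∑ x, |dg W x - m| ≤ Real.sqrt d * (Fintype.card V : ℝ) := by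
  have h1 := Finset.sum_mul_sq_le_sq_mul_sq (univ : Finset V) (fun _ => (1 : ℝ)) (fun x => |dg W x - m|)
  simp only [one_mul, one_pow, Finset.sum_const, Finset.card_univ, nsmul_eq_mul, mul_one, sq_abs] at h1
  have hn : (0 : ℝ) ≤ Fintype.card V := Nat.cast_nonneg _
  apply le_of_sq_le_sq _ (by positivity)
  calc (∑ x, |dg W x - m|) ^ 2 ≤ (Fintype.card V : ℝ) * ∑ x, (dg W x - m) ^ 2 := h1
    _ ≤ (Fintype.card V : ℝ) * (d * (Fintype.card V : ℝ)) := by gcongr
    _ = (Real.sqrt d * (Fintype.card V : ℝ)) ^ 2 := by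
        rw [mul_pow, Real.sq_sqrt hd]
        ring

/-- the number of red edges between cliques and vertices -/
theorem c2 {V : Type} [Fintype V] {W : V → V → ℝ} (hW : Ker W) (D : Finset V) (q : ℕ) (m d : ℝ) (hd : 0 ≤ d)
    (hm : ((q : ℝ) + 1) * m = 1)
    (h : ∑ x, (dg W x - m) ^ 2 ≤ d * (Fintype.card V : ℝ)) (hn : 0 < Fintype.card V) :
    ∑ K ∈ cl (co W) D (q + 1), ∑ v ∈ D, sK W K v ≤
      (Fintype.card V : ℝ) * ((cl (co W) D (q + 1)).card : ℝ) +
        ((q : ℝ) + 1) * Real.sqrt d * (Fintype.card V : ℝ) ^ (q + 2) := by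
  have hn0 : (0 : ℝ) < Fintype.card V := by exact_mod_cast hn
  set n : ℝ := (Fintype.card V : ℝ) with hnd
  have hW0 : ∀ x y, 0 ≤ W x y := by
    intro x y
    rcases hW.zo x y with h | h <;> rw [h] <;> norm_num
  have hdev := deg_dev W m d hd h
  rw [← hnd] at hdev
  have h1 : ∀ K : Fin (q + 1) → V, ∑ v ∈ D, sK W K v ≤ n + n * ∑ i, |dg W (K i) - m| := by
    intro K
    calc ∑ v ∈ D, sK W K v ≤ ∑ v, sK W K v :=
          Finset.sum_le_sum_of_subset_of_nonneg (Finset.subset_univ _)
            (fun v _ _ => Finset.sum_nonneg (fun i _ => hW0 _ _))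
      _ = ∑ i, ∑ v, W (K i) v := by
          unfold sK
          exact Finset.sum_comm
      _ = ∑ i, n * dg W (K i) := by
          apply Finset.sum_congr rfl
          intro i _
          unfold dg
          rw [← hnd]
          field_simp
      _ ≤ ∑ i : Fin (q + 1), (n * m + n * |dg W (K i) - m|) := by
          apply Finset.sum_le_sum
          intro i _
          have := le_abs_self (dg W (K i) - m)
          nlinarith
      _ = ((q : ℝ) + 1) * (n * m) + n * ∑ i, |dg W (K i) - m| := by
          rw [Finset.sum_add_distrib, Finset.sum_const, Finset.card_univ, Fintype.card_fin, nsmul_eq_mul,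
            Finset.mul_sum]
          push_cast
          ring
      _ = n + n * ∑ i, |dg W (K i) - m| := by
          have : ((q : ℝ) + 1) * (n * m) = n * (((q : ℝ) + 1) * m) := by ring
          rw [this, hm, mul_one]
  have h2 : ∑ K ∈ cl (co W) D (q + 1), ∑ i, |dg W (K i) - m| ≤
      ((q : ℝ) + 1) * (n ^ q * (Real.sqrt d * n)) := by
    calc ∑ K ∈ cl (co W) D (q + 1), ∑ i, |dg W (K i) - m| ≤ ∑ K : Fin (q + 1) → V, ∑ i, |dg W (K i) - m| :=
          Finset.sum_le_sum_of_subset_of_nonneg (Finset.subset_univ _)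
            (fun K _ _ => Finset.sum_nonneg (fun i _ => abs_nonneg _))
      _ = ∑ i : Fin (q + 1), ∑ K : Fin (q + 1) → V, |dg W (K i) - m| := Finset.sum_comm
      _ = ∑ i : Fin (q + 1), n ^ q * ∑ x, |dg W x - m| := by
          apply Finset.sum_congr rfl
          intro i _
          exact sum_coord q i (fun x => |dg W x - m|)
      _ = ((q : ℝ) + 1) * (n ^ q * ∑ x, |dg W x - m|) := by
          rw [Finset.sum_const, Finset.card_univ, Fintype.card_fin, nsmul_eq_mul]
          push_cast
          ring
      _ ≤ _ := by gcongr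
  calc ∑ K ∈ cl (co W) D (q + 1), ∑ v ∈ D, sK W K v ≤
        ∑ K ∈ cl (co W) D (q + 1), (n + n * ∑ i, |dg W (K i) - m|) := Finset.sum_le_sum (fun K _ => h1 K)
    _ = n * ((cl (co W) D (q + 1)).card : ℝ) + n * ∑ K ∈ cl (co W) D (q + 1), ∑ i, |dg W (K i) - m| := by
        rw [Finset.sum_add_distrib, Finset.sum_const, nsmul_eq_mul, Finset.mul_sum]
        ring
    _ ≤ n * ((cl (co W) D (q + 1)).card : ℝ) + n * (((q : ℝ) + 1) * (n ^ q * (Real.sqrt d * n))) := by gcongr
    _ = _ := by ring

open Classical in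
/-- triples for a clique -/
noncomputable def bK {V : Type} [Fintype V] {q : ℕ} (W : V → V → ℝ) (D : Finset V) (K : Fin q → V) :
    Finset (Fin q × V × V) :=
  univ.filter (fun z => z.2.1 ∈ D ∧ z.2.2 ∈ D ∧ ex W K z.1 z.2.1 ∧ ex W K z.1 z.2.2 ∧ W z.2.1 z.2.2 = 0)

open Classical in
theorem mem_bK {V : Type} [Fintype V] {q : ℕ} (W : V → V → ℝ) (D : Finset V) (K : Fin q → V)
    (z : Fin q × V × V) : z ∈ bK W D K ↔
      z.2.1 ∈ D ∧ z.2.2 ∈ D ∧ ex W K z.1 z.2.1 ∧ ex W K z.1 z.2.2 ∧ W z.2.1 z.2.2 = 0 := by
  unfold bK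
  rw [Finset.mem_filter]
  simp

open Classical in
/-- the number of triples -/
theorem c3 {V : Type} [Fintype V] {W : V → V → ℝ} (hW : Ker W) (D : Finset V) (q : ℕ) :
    ∑ K ∈ cl (co W) D q, (bK W D K).card ≤
      q * Fintype.card V * (cl (co W) D (q + 1)).card := by
  rw [← Finset.card_sigma]
  have hc : ((univ : Finset (Fin q × V)) ×ˢ cl (co W) D (q + 1)).card =
      q * Fintype.card V * (cl (co W) D (q + 1)).card := by
    rw [Finset.card_product, Finset.card_univ, Fintype.card_prod, Fintype.card_fin]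
  rw [← hc]
  apply Finset.card_le_card_of_injOn
    (fun p : (_ : Fin q → V) × (Fin q × V × V) =>
      ((p.2.1, p.1 p.2.1), (Fin.snoc (Function.update p.1 p.2.1 p.2.2.1) p.2.2.2 : Fin (q + 1) → V)))
  · rintro ⟨K, i, v, v'⟩ hp
    rw [Finset.mem_coe, Finset.mem_sigma, mem_bK] at hp
    obtain ⟨hK, hv, hv', he, he', hvv⟩ := hp
    simp only at hK hv hv' he he' hvv
    rw [Finset.mem_coe, Finset.mem_product]
    refine ⟨Finset.mem_univ _, ?_⟩
    simp only
    apply snoc_mem hW D q _ v' _ hv'
    · intro j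
      by_cases hj : j = i
      · rw [hj, Function.update_self]
        exact hvv
      · rw [Function.update_of_ne hj]
        have := he' j
        rwa [if_neg hj] at this
    · rw [mem_cl] at hK ⊢
      constructor
      · intro j
        by_cases hj : j = i
        · rw [hj, Function.update_self]; exact hv
        · rw [Function.update_of_ne hj]; exact hK.1 j
      · intro a b hab
        by_cases ha : a = i
        · have hb : b ≠ i := fun h => hab (by rw [ha, h])
          rw [ha, Function.update_self, Function.update_of_ne hb]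
          have := he b
          rw [if_neg hb] at this
          unfold co
          rw [hW.symm, this, sub_zero]
        · by_cases hb : b = i
          · rw [hb, Function.update_self, Function.update_of_ne ha]
            have := he a
            rw [if_neg ha] at this
            unfold co
            rw [this, sub_zero]
          · rw [Function.update_of_ne ha, Function.update_of_ne hb]
            exact hK.2 a b hab
  · rintro ⟨K, i, v, v'⟩ _ ⟨K', i', w, w'⟩ _ h
    simp only [Prod.mk.injEq] at h
    obtain ⟨⟨h1, h2⟩, h3⟩ := h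
    subst h1
    have h4 : Function.update K i v = Function.update K' i w := by
      funext j
      have := congrFun h3 (Fin.castSucc j)
      rwa [Fin.snoc_castSucc, Fin.snoc_castSucc] at this
    have h5 : v' = w' := by
      have := congrFun h3 (Fin.last q)
      rwa [Fin.snoc_last, Fin.snoc_last] at this
    have h6 : v = w := by
      have := congrFun h4 i
      rwa [Function.update_self, Function.update_self] at this
    have h7 : K = K' := by
      funext j
      by_cases hj : j = i
      · rw [hj]; exact h2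
      · have := congrFun h4 j
        rwa [Function.update_of_ne hj, Function.update_of_ne hj] at this
    rw [h5, h6, h7]

end Pool.Agent.W797.LP
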